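import Mathlib

set_option autoImplicit false

/-! The limsup of very thin slabs has Hausdorff dimension at most `n - 1`. -/

namespace Pool.Agent.W99.KA

open MeasureTheory Set Filter Topology
open scoped ENNReal NNReal

noncomputable section

variable {n : ℕ}

lemma slab_cover (hn : 0 < n) (u : Fin n → ℝ) (hu : 1 ≤ ‖u‖) (R ρ : ℕ) :
    ∃ (c : ℕ) (t : Fin c → Set (Fin n → ℝ)),
      (c : ℝ) ≤ ((4 * ρ + 1) * ‖u‖) ^ (n - 1) ∧
      (∀ m, ∀ v ∈ t m, ∀ v' ∈ t m, dist v v' ≤ (2 * R + n + 1) / ‖u‖) ∧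
      {v | ‖v‖ ≤ ρ ∧ |∑ i, u i * v i| ≤ R} ⊆ ⋃ m, t m := by
  have : Nonempty (Fin n) := ⟨⟨0, hn⟩⟩
  have hU : 0 < ‖u‖ := by linarith
  obtain ⟨i, hi⟩ : ∃ i, ‖u‖ = |u i| := by
    obtain ⟨i, hi⟩ := Finite.exists_max (fun i => |u i|)
    refine ⟨i, le_antisymm ?_ ?_⟩
    · exact (pi_norm_le_iff_of_nonneg (abs_nonneg _)).2 hi
    · exact norm_le_pi_norm u i
  set N : ℕ := ⌈‖u‖⌉₊ with hN
  have hN1 : ‖u‖ ≤ N := Nat.le_ceil _
  have hN2 : (N : ℝ) ≤ 2 * ‖u‖ := by
    have := Nat.ceil_lt_add_one (norm_nonneg u)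
    linarith
  have hN0 : (0:ℝ) < N := by linarith
  set ι := ({l : Fin n // l ≠ i} → Fin (2 * ρ * N + 1)) with hι
  let t : ι → Set (Fin n → ℝ) := fun m => {v | (‖v‖ ≤ ρ ∧ |∑ i, u i * v i| ≤ R) ∧
    ∀ l : {l : Fin n // l ≠ i}, ⌊(N:ℝ) * (v l + ρ)⌋₊ = m l}
  refine ⟨Fintype.card ι, fun k => t ((Fintype.equivFin ι).symm k), ?_, ?_, ?_⟩
  · have h1 : Fintype.card {l : Fin n // l ≠ i} = n - 1 := by
      rw [Fintype.card_subtype_compl, Fintype.card_fin, Fintype.card_unique]
    have h0 : Fintype.card ι = (2 * ρ * N + 1) ^ (n - 1) := by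
      have h2 := Fintype.card_fun (α := {l : Fin n // l ≠ i}) (β := Fin (2 * ρ * N + 1))
      rw [Fintype.card_fin, h1] at h2
      convert h2
    rw [h0]
    push_cast
    refine pow_le_pow_left₀ (by positivity) ?_ _
    have h2 : 2 * (ρ:ℝ) * N ≤ 2 * ρ * (2 * ‖u‖) := by gcongr
    nlinarith
  · intro k v hv v' hv'
    have key : ∀ l, l ≠ i → |v l - v' l| ≤ 1 / ‖u‖ := by
      intro l hl
      have h1 := hv.2 ⟨l, hl⟩
      have h2 := hv'.2 ⟨l, hl⟩
      have h3 := h1.trans h2.symm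
      simp only at h3
      have hp : ∀ w : Fin n → ℝ, ‖w‖ ≤ ρ → 0 ≤ (N:ℝ) * (w l + ρ) := fun w hw => by
        have h4 := (norm_le_pi_norm w l).trans hw
        rw [Real.norm_eq_abs, abs_le] at h4
        have : 0 ≤ w l + ρ := by linarith [h4.1]
        positivity
      have ha := Nat.floor_le (hp v hv.1.1)
      have hb := Nat.lt_floor_add_one ((N:ℝ) * (v l + ρ))
      have hc := Nat.floor_le (hp v' hv'.1.1)
      have hd := Nat.lt_floor_add_one ((N:ℝ) * (v' l + ρ))
      rw [h3] at ha hb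
      have h5 : |(N:ℝ) * (v l - v' l)| ≤ 1 := by
        rw [abs_le]
        constructor <;> nlinarith
      rw [abs_mul, abs_of_pos hN0] at h5
      rw [le_div_iff₀ hU]
      calc |v l - v' l| * ‖u‖ ≤ |v l - v' l| * N := by gcongr
        _ ≤ 1 := by linarith
    have hdi : |v i - v' i| ≤ (2 * R + n) / ‖u‖ := by
      rw [le_div_iff₀ hU]
      have h1 : u i * (v i - v' i) = (∑ l, u l * v l) - (∑ l, u l * v' l) -
          ∑ l ∈ Finset.univ.erase i, u l * (v l - v' l) := by
        rw [← Finset.sum_sub_distrib, ← Finset.add_sum_erase Finset.univ _ (Finset.mem_univ i)]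
        have : ∑ x ∈ Finset.univ.erase i, (u x * v x - u x * v' x) =
          ∑ l ∈ Finset.univ.erase i, u l * (v l - v' l) := Finset.sum_congr rfl fun l _ => by ring
        rw [this]; ring
      have h2 : |∑ l ∈ Finset.univ.erase i, u l * (v l - v' l)| ≤ n := by
        calc |∑ l ∈ Finset.univ.erase i, u l * (v l - v' l)|
            ≤ ∑ l ∈ Finset.univ.erase i, |u l * (v l - v' l)| := Finset.abs_sum_le_sum_abs _ _
          _ ≤ ∑ _l ∈ Finset.univ.erase i, (1:ℝ) := by
              refine Finset.sum_le_sum fun l hl => ?_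
              rw [abs_mul]
              have h3 := key l (Finset.ne_of_mem_erase hl)
              have h4 : |u l| ≤ ‖u‖ := norm_le_pi_norm u l
              calc |u l| * |v l - v' l| ≤ ‖u‖ * (1 / ‖u‖) := by gcongr
                _ = 1 := by field_simp
          _ ≤ n := by
              rw [Finset.sum_const, nsmul_eq_mul, mul_one]
              have := Finset.card_le_univ (Finset.univ.erase i)
              rw [Fintype.card_fin] at this
              exact_mod_cast this
      have h5 : |u i * (v i - v' i)| ≤ 2 * R + n := by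
        rw [h1]
        have h6 := hv.1.2
        have h7 := hv'.1.2
        calc _ ≤ |∑ l, u l * v l| + |∑ l, u l * v' l| + |∑ l ∈ Finset.univ.erase i, u l * (v l - v' l)| :=
              (abs_sub _ _).trans (add_le_add (abs_sub _ _) le_rfl)
          _ ≤ 2 * R + n := by linarith
      rw [abs_mul, ← hi] at h5
      linarith
    rw [dist_pi_le_iff (by positivity)]
    intro l
    rw [Real.dist_eq]
    by_cases hl : l = i
    · rw [hl]
      refine hdi.trans ?_
      exact div_le_div_of_nonneg_right (by linarith) hU.le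
    · refine (key l hl).trans ?_
      gcongr
      have : (0:ℝ) ≤ R := Nat.cast_nonneg _
      have : (0:ℝ) ≤ n := Nat.cast_nonneg _
      linarith
  · intro v hv
    have hlt : ∀ l : Fin n, ⌊(N:ℝ) * (v l + ρ)⌋₊ < 2 * ρ * N + 1 := by
      intro l
      have h4 := (norm_le_pi_norm v l).trans hv.1
      rw [Real.norm_eq_abs, abs_le] at h4
      rw [Nat.lt_add_one_iff]
      refine Nat.floor_le_of_le ?_
      push_cast
      nlinarith [h4.1, h4.2]
    rw [mem_iUnion]
    refine ⟨Fintype.equivFin ι (fun l => ⟨⌊(N:ℝ) * (v l + ρ)⌋₊, hlt l⟩), ?_⟩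
    simp only [Equiv.symm_apply_apply]
    exact ⟨hv, fun l => rfl⟩

/-- the limsup of the slabs has zero `d`-dimensional Hausdorff measure -/
lemma limsup_slab (hn : 0 < n) (u : ℕ → Fin n → ℝ) (hu : ∀ᶠ j in atTop, (2:ℝ) ^ (j ^ 2) ≤ ‖u j‖)
    (R ρ : ℕ) (d : ℝ) (hd : (n:ℝ) - 1 < d) :
    μH[d] {v : Fin n → ℝ | ‖v‖ ≤ ρ ∧ ∃ᶠ j in atTop, |∑ i, u j i * v i| ≤ R} = 0 := by
  set ε : ℝ := d - ((n:ℝ) - 1) with hε
  have hε0 : 0 < ε := by linarith
  set C : ℝ := 2 * R + n + 1 with hC
  have hC0 : 0 < C := by positivity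
  have hd0 : 0 < d := by
    have : (1:ℝ) ≤ n := by exact_mod_cast hn
    linarith
  set C1 : ℝ := (4 * ρ + 1) ^ (n - 1) * C ^ d with hC1
  have hC10 : 0 ≤ C1 := by positivity
  obtain ⟨j0, hj0⟩ := eventually_atTop.1 hu
  -- covers
  have hcov : ∀ j, ∃ (c : ℕ) (t : Fin c → Set (Fin n → ℝ)), j0 ≤ j →
      (c : ℝ) ≤ ((4 * ρ + 1) * ‖u j‖) ^ (n - 1) ∧
      (∀ m, ∀ v ∈ t m, ∀ v' ∈ t m, dist v v' ≤ C / ‖u j‖) ∧
      {v | ‖v‖ ≤ ρ ∧ |∑ i, u j i * v i| ≤ R} ⊆ ⋃ m, t m := by
    intro j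
    by_cases h : j0 ≤ j
    · have h1 : 1 ≤ ‖u j‖ := by
        refine le_trans ?_ (hj0 j h)
        exact one_le_pow₀ (by norm_num)
      obtain ⟨c, t, h2⟩ := slab_cover hn (u j) h1 R ρ
      exact ⟨c, t, fun _ => h2⟩
    · exact ⟨0, fun _ => ∅, fun h' => absurd h' h⟩
  choose c t hct using hcov
  -- per-scale bound
  have hdiam : ∀ j, j0 ≤ j → ∀ m, Metric.ediam (t j m) ≤ ENNReal.ofReal (C / ‖u j‖) := by
    intro j hj m
    refine Metric.ediam_le fun v hv v' hv' => ?_
    rw [edist_dist]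
    exact ENNReal.ofReal_le_ofReal ((hct j hj).2.1 m v hv v' hv')
  have hsum : ∀ j, j0 ≤ j → 1 / ε ≤ j → ∑ m, Metric.ediam (t j m) ^ d ≤ ENNReal.ofReal (C1 * (1 / 2) ^ j) := by
    intro j hj hjε
    have hU1 : (2:ℝ) ^ (j ^ 2) ≤ ‖u j‖ := hj0 j hj
    have hUp : 0 < ‖u j‖ := lt_of_lt_of_le (by positivity) hU1
    calc ∑ m, Metric.ediam (t j m) ^ d ≤ ∑ _m : Fin (c j), (ENNReal.ofReal (C / ‖u j‖)) ^ d :=
          Finset.sum_le_sum fun m _ => ENNReal.rpow_le_rpow (hdiam j hj m) hd0.le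
      _ = ENNReal.ofReal ((c j : ℝ) * (C / ‖u j‖) ^ d) := by
          rw [Finset.sum_const, Finset.card_univ, Fintype.card_fin, nsmul_eq_mul,
            ENNReal.ofReal_mul (Nat.cast_nonneg _), ENNReal.ofReal_natCast,
            ENNReal.ofReal_rpow_of_nonneg (by positivity) hd0.le]
      _ ≤ ENNReal.ofReal (C1 * (1 / 2) ^ j) := by
          refine ENNReal.ofReal_le_ofReal ?_
          calc (c j : ℝ) * (C / ‖u j‖) ^ d ≤ ((4 * ρ + 1) * ‖u j‖) ^ (n - 1) * (C / ‖u j‖) ^ d := by
                gcongr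
                exact (hct j hj).1
            _ = C1 * ‖u j‖ ^ (-ε) := by
                rw [mul_pow, Real.div_rpow hC0.le hUp.le, ← Real.rpow_natCast ‖u j‖ (n - 1),
                  Nat.cast_sub hn, Nat.cast_one, hC1]
                have h5 : ‖u j‖ ^ (-ε) = ‖u j‖ ^ ((n:ℝ) - 1) / ‖u j‖ ^ d := by
                  rw [← Real.rpow_sub hUp]
                  congr 1
                  rw [hε]; ring
                rw [h5]; ring
            _ ≤ C1 * (1 / 2) ^ j := by
                refine mul_le_mul_of_nonneg_left ?_ hC10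
                rw [Real.rpow_neg hUp.le]
                have h6 : (2:ℝ) ^ j ≤ ‖u j‖ ^ ε := by
                  calc (2:ℝ) ^ j ≤ ((2:ℝ) ^ (j ^ 2)) ^ ε := by
                        rw [← Real.rpow_natCast 2 j, ← Real.rpow_natCast 2 (j ^ 2), ← Real.rpow_mul (by norm_num)]
                        refine Real.rpow_le_rpow_of_exponent_le (by norm_num) ?_
                        push_cast
                        have h7 : 1 ≤ (j:ℝ) * ε := by
                          rw [div_le_iff₀ hε0] at hjε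
                          linarith
                        have h8 : (0:ℝ) ≤ j := Nat.cast_nonneg _
                        nlinarith
                    _ ≤ ‖u j‖ ^ ε := Real.rpow_le_rpow (by positivity) hU1 hε0.le
                rw [one_div, inv_pow]
                exact inv_anti₀ (by positivity) h6
  obtain ⟨j1, hj1⟩ := exists_nat_ge (1 / ε)
  set J0 := max j0 j1 with hJ0
  have hlim0 : Tendsto (fun J : ℕ => ENNReal.ofReal (C1 * (1 / 2) ^ J * 2)) atTop (𝓝 0) := by
    rw [← ENNReal.ofReal_zero]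
    refine (ENNReal.continuous_ofReal.tendsto 0).comp ?_
    have h1 : Tendsto (fun J : ℕ => ((1:ℝ) / 2) ^ J) atTop (𝓝 0) :=
      tendsto_pow_atTop_nhds_zero_of_lt_one (by norm_num) (by norm_num)
    have h2 := (h1.const_mul C1).mul_const 2
    simpa using h2
  have hr : Tendsto (fun J : ℕ => ENNReal.ofReal (C * (1 / 2) ^ J)) atTop (𝓝 0) := by
    rw [← ENNReal.ofReal_zero]
    refine (ENNReal.continuous_ofReal.tendsto 0).comp ?_
    have h1 : Tendsto (fun J : ℕ => ((1:ℝ) / 2) ^ J) atTop (𝓝 0) :=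
      tendsto_pow_atTop_nhds_zero_of_lt_one (by norm_num) (by norm_num)
    simpa using h1.const_mul C
  have hmain := Measure.hausdorffMeasure_le_liminf_tsum (ι := fun J : ℕ => Σ j : ℕ, Fin (c (J + j))) d
    {v : Fin n → ℝ | ‖v‖ ≤ ρ ∧ ∃ᶠ j in atTop, |∑ i, u j i * v i| ≤ R}
    (fun J : ℕ => ENNReal.ofReal (C * (1 / 2) ^ J)) hr (fun J x => t (J + x.1) x.2) ?_ ?_
  · refine le_antisymm (hmain.trans ?_) zero_le
    calc liminf (fun J : ℕ => ∑' x : Σ j : ℕ, Fin (c (J + j)), Metric.ediam (t (J + x.1) x.2) ^ d) atTop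
        ≤ liminf (fun J : ℕ => ENNReal.ofReal (C1 * (1 / 2) ^ J * 2)) atTop := by
          refine liminf_le_liminf ?_ (by isBoundedDefault)
          filter_upwards [eventually_ge_atTop J0] with J hJ
          rw [ENNReal.tsum_sigma']
          calc ∑' j : ℕ, ∑' m : Fin (c (J + j)), Metric.ediam (t (J + j) m) ^ d
              ≤ ∑' j : ℕ, ENNReal.ofReal (C1 * (1 / 2) ^ (J + j)) := by
                refine ENNReal.tsum_le_tsum fun j => ?_
                rw [tsum_fintype]
                refine hsum (J + j) (by omega) ?_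
                refine hj1.trans ?_
                have : j1 ≤ J + j := by omega
                exact_mod_cast this
            _ = ENNReal.ofReal (C1 * (1 / 2) ^ J * 2) := by
                have h1 : ∀ j : ℕ, C1 * (1 / 2 : ℝ) ^ (J + j) = C1 * (1 / 2) ^ J * (1 / 2) ^ j := fun j => by
                  rw [pow_add]; ring
                simp only [h1]
                rw [← ENNReal.ofReal_tsum_of_nonneg (fun j => by positivity), tsum_mul_left, tsum_geometric_two]
                exact (summable_geometric_two).mul_left _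
      _ = 0 := hlim0.liminf_eq
  · filter_upwards [eventually_ge_atTop J0] with J hJ x
    refine (hdiam (J + x.1) (by omega) x.2).trans (ENNReal.ofReal_le_ofReal ?_)
    have hU1 : (2:ℝ) ^ ((J + x.1) ^ 2) ≤ ‖u (J + x.1)‖ := hj0 _ (by omega)
    have h2 : (2:ℝ) ^ J ≤ (2:ℝ) ^ ((J + x.1) ^ 2) := by
      refine pow_le_pow_right₀ (by norm_num) ?_
      nlinarith [Nat.zero_le x.1, Nat.zero_le J, Nat.le_self_pow (two_ne_zero) J]
    rw [one_div, inv_pow, ← div_eq_mul_inv]
    exact div_le_div_of_nonneg_left hC0.le (by positivity) (h2.trans hU1)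
  · filter_upwards [eventually_ge_atTop J0] with J hJ v hv
    obtain ⟨j, hj, hjR⟩ := (frequently_atTop.1 hv.2) J
    have h3 := (hct j (by omega)).2.2 (show v ∈ {v | ‖v‖ ≤ ρ ∧ |∑ i, u j i * v i| ≤ R} from ⟨hv.1, hjR⟩)
    obtain ⟨m, hm⟩ := mem_iUnion.1 h3
    obtain ⟨e, rfl⟩ := Nat.exists_eq_add_of_le hj
    exact mem_iUnion.2 ⟨⟨e, m⟩, hm⟩

end

end Pool.Agent.W99.KA
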