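import Mathlib
import Pool.Agent.Y757.EM.Tor

set_option autoImplicit false

/-! Images of a Rajchman measure on a line under affine maps into the torus converge weakly to Haar
measure, as soon as the velocities escape along every character. -/

namespace Pool.Agent.W99.KA

open MeasureTheory Set Filter Topology Pool.Agent.Y757.EM

noncomputable section

variable {n : ℕ}

/-- the covering map of the torus -/
def pj (x : Fin n → ℝ) : UnitAddTorus (Fin n) := fun i => (x i : UnitAddCircle)

theorem pj_cont : Continuous (pj : (Fin n → ℝ) → UnitAddTorus (Fin n)) := by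
  unfold pj
  refine continuous_pi fun i => ?_
  exact (AddCircle.continuous_mk' 1).comp (by fun_prop)

lemma mF_pj (h : Fin n → ℤ) (x : Fin n → ℝ) : UnitAddTorus.mFourier h (pj x) =
    Complex.exp (((2 * Real.pi * ∑ i, (h i : ℝ) * x i : ℝ) : ℂ) * Complex.I) := by
  have h1 := mF_line x h 1
  have h2 : ln x 1 = pj x := by
    funext i
    simp [ln, pj]
  rw [h2] at h1
  rw [h1]
  simp

lemma integral_mF {h : Fin n → ℤ} (hn : h ≠ 0) :
    ∫ x, UnitAddTorus.mFourier h x ∂(haarT (Fin n)) = 0 := by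
  unfold haarT UnitAddTorus.mFourier
  rw [ContinuousMap.coe_mk]
  have hp := integral_fintype_prod_eq_prod (𝕜 := ℂ) (ι := Fin n) (E := fun _ => UnitAddCircle)
    (f := fun i x => (fourier (h i) x : ℂ)) (μ := fun _ => AddCircle.haarAddCircle)
  rw [hp]
  obtain ⟨i, hi⟩ := Function.ne_iff.mp hn
  exact Finset.prod_eq_zero (Finset.mem_univ i) (integral_fourier hi)

lemma intT (f : C(UnitAddTorus (Fin n), ℂ)) : Integrable (fun x => f x) (haarT (Fin n)) :=
  f.continuous.integrable_of_hasCompactSupport (HasCompactSupport.of_compactSpace _)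

lemma intN (ν : Measure ℝ) [IsFiniteMeasure ν] (f : C(UnitAddTorus (Fin n), ℂ)) {φ : ℝ → UnitAddTorus (Fin n)}
    (hφ : Continuous φ) : Integrable (fun s => f (φ s)) ν := by
  refine Integrable.of_bound (f.continuous.comp hφ).aestronglyMeasurable ‖f‖ ?_
  exact Eventually.of_forall fun s => f.norm_coe_le_norm _

/-- weak convergence to Haar measure -/
theorem weak (ν : Measure ℝ) [IsFiniteMeasure ν] (hν : Tendsto (charFun ν) (cocompact ℝ) (𝓝 0))
    (p q : ℕ → Fin n → ℝ)
    (hq : ∀ h : Fin n → ℤ, h ≠ 0 → Tendsto (fun k => |∑ i, (h i : ℝ) * q k i|) atTop atTop)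
    (Φ : C(UnitAddTorus (Fin n), ℂ)) :
    Tendsto (fun k => ∫ s, Φ (pj (p k + s • q k)) ∂ν) atTop
      (𝓝 ((ν.real univ : ℂ) * ∫ x, Φ x ∂(haarT (Fin n)))) := by
  have hcont : ∀ k, Continuous (fun s : ℝ => pj (p k + s • q k)) := fun k =>
    pj_cont.comp (by fun_prop)
  have hmono : ∀ h : Fin n → ℤ, Tendsto (fun k => ∫ s, UnitAddTorus.mFourier h (pj (p k + s • q k)) ∂ν)
      atTop (𝓝 ((ν.real univ : ℂ) * ∫ x, UnitAddTorus.mFourier h x ∂(haarT (Fin n)))) := by
    intro h
    by_cases hn : h = 0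
    · subst hn
      simp only [UnitAddTorus.mFourier_zero, ContinuousMap.one_apply]
      simp
    · rw [integral_mF hn, mul_zero]
      have h1 : ∀ k, ∫ s, UnitAddTorus.mFourier h (pj (p k + s • q k)) ∂ν =
          Complex.exp (((2 * Real.pi * ∑ i, (h i : ℝ) * p k i : ℝ) : ℂ) * Complex.I) *
            charFun ν (2 * Real.pi * ∑ i, (h i : ℝ) * q k i) := by
        intro k
        rw [charFun_apply_real, ← integral_const_mul]
        refine integral_congr_ae (Eventually.of_forall fun s => ?_)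
        show UnitAddTorus.mFourier h (pj (p k + s • q k)) =
          Complex.exp (((2 * Real.pi * ∑ i, (h i : ℝ) * p k i : ℝ) : ℂ) * Complex.I) *
          Complex.exp (((2 * Real.pi * ∑ i, (h i : ℝ) * q k i : ℝ) : ℂ) * s * Complex.I)
        rw [mF_pj, ← Complex.exp_add]
        congr 1
        have h2 : ∑ i, (h i : ℝ) * (p k + s • q k) i = ∑ i, (h i : ℝ) * p k i + s * ∑ i, (h i : ℝ) * q k i := by
          rw [Finset.mul_sum, ← Finset.sum_add_distrib]
          refine Finset.sum_congr rfl fun i _ => ?_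
          simp only [Pi.add_apply, Pi.smul_apply, smul_eq_mul]
          ring
        rw [h2]
        push_cast
        ring
      rw [tendsto_zero_iff_norm_tendsto_zero]
      have h2 : Tendsto (fun k => ‖charFun ν (2 * Real.pi * ∑ i, (h i : ℝ) * q k i)‖) atTop (𝓝 0) := by
        have h3 : Tendsto (fun k => 2 * Real.pi * ∑ i, (h i : ℝ) * q k i) atTop (cocompact ℝ) := by
          rw [← Metric.cobounded_eq_cocompact, ← tendsto_norm_atTop_iff_cobounded]
          have h4 : Tendsto (fun k => 2 * Real.pi * |∑ i, (h i : ℝ) * q k i|) atTop atTop :=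
            (hq h hn).const_mul_atTop (by positivity)
          refine h4.congr fun k => ?_
          rw [Real.norm_eq_abs, abs_mul, abs_of_pos (by positivity : (0:ℝ) < 2 * Real.pi)]
        have h5 := (hν.comp h3).norm
        simpa using h5
      refine h2.congr fun k => ?_
      rw [h1, norm_mul, Complex.norm_exp_ofReal_mul_I, one_mul]
  let S : Submodule ℂ C(UnitAddTorus (Fin n), ℂ) :=
    { carrier := {Φ | Tendsto (fun k => ∫ s, Φ (pj (p k + s • q k)) ∂ν) atTop
        (𝓝 ((ν.real univ : ℂ) * ∫ x, Φ x ∂(haarT (Fin n))))}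
      add_mem' := by
        intro f g hf hg
        change Tendsto _ _ _
        have h2 : ∫ x, (f + g) x ∂(haarT (Fin n)) = ∫ x, f x ∂(haarT (Fin n)) + ∫ x, g x ∂(haarT (Fin n)) := by
          simp only [ContinuousMap.add_apply]
          exact integral_add (intT f) (intT g)
        rw [h2, mul_add]
        refine (Tendsto.add hf hg).congr fun k => ?_
        simp only [ContinuousMap.add_apply]
        exact (integral_add (intN ν f (hcont k)) (intN ν g (hcont k))).symm
      zero_mem' := by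
        change Tendsto _ _ _
        simp only [ContinuousMap.zero_apply, integral_zero, mul_zero]
        exact tendsto_const_nhds
      smul_mem' := by
        intro c f hf
        change Tendsto _ _ _
        have h2 : ∫ x, (c • f) x ∂(haarT (Fin n)) = c * ∫ x, f x ∂(haarT (Fin n)) := by
          simp only [ContinuousMap.smul_apply, smul_eq_mul]
          exact integral_const_mul c _
        rw [h2, mul_left_comm]
        refine (Tendsto.const_mul c hf).congr fun k => ?_
        simp only [ContinuousMap.smul_apply, smul_eq_mul]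
        exact (integral_const_mul c _).symm }
  have hcl : S.topologicalClosure ≤ S := by
    intro Φ hΦ
    change Tendsto _ _ _
    rw [Metric.tendsto_nhds]
    intro ε hε
    set V : ℝ := ν.real univ with hV
    have hV0 : 0 ≤ V := measureReal_nonneg
    have hΦ' : Φ ∈ closure (S : Set C(UnitAddTorus (Fin n), ℂ)) := hΦ
    rw [Metric.mem_closure_iff] at hΦ'
    obtain ⟨Ψ, hΨ, hd⟩ := hΦ' (ε / (3 * (V + 1))) (by positivity)
    have hΨ' : Tendsto (fun k => ∫ s, Ψ (pj (p k + s • q k)) ∂ν) atTop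
        (𝓝 ((ν.real univ : ℂ) * ∫ x, Ψ x ∂(haarT (Fin n)))) := hΨ
    rw [Metric.tendsto_nhds] at hΨ'
    filter_upwards [hΨ' (ε / 3) (by positivity)] with k h1
    have hpt : ∀ x, ‖Φ x - Ψ x‖ ≤ ε / (3 * (V + 1)) := fun x => by
      rw [← dist_eq_norm]
      exact (ContinuousMap.dist_apply_le_dist x).trans hd.le
    have hVε : V * (ε / (3 * (V + 1))) < ε / 3 := by
      rw [← mul_div_assoc, div_lt_div_iff₀ (by positivity) (by norm_num)]
      nlinarith
    have h2 : ‖(∫ s, Φ (pj (p k + s • q k)) ∂ν) - ∫ s, Ψ (pj (p k + s • q k)) ∂ν‖ ≤ V * (ε / (3 * (V + 1))) := by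
      rw [← integral_sub (intN ν Φ (hcont k)) (intN ν Ψ (hcont k))]
      have := norm_integral_le_of_norm_le_const (μ := ν)
        (Eventually.of_forall fun s => hpt (pj (p k + s • q k)))
      rwa [mul_comm] at this
    have h3 : ‖((V : ℂ) * ∫ x, Φ x ∂(haarT (Fin n))) - (V : ℂ) * ∫ x, Ψ x ∂(haarT (Fin n))‖ ≤
        V * (ε / (3 * (V + 1))) := by
      rw [← mul_sub, ← integral_sub (intT Φ) (intT Ψ), norm_mul, Complex.norm_real, Real.norm_of_nonneg hV0]
      refine mul_le_mul_of_nonneg_left ?_ hV0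
      have := norm_integral_le_of_norm_le_const (μ := haarT (Fin n)) (Eventually.of_forall hpt)
      rwa [probReal_univ, mul_one] at this
    rw [dist_eq_norm] at h1 ⊢
    calc ‖(∫ s, Φ (pj (p k + s • q k)) ∂ν) - (V : ℂ) * ∫ x, Φ x ∂(haarT (Fin n))‖
        = ‖((∫ s, Φ (pj (p k + s • q k)) ∂ν) - ∫ s, Ψ (pj (p k + s • q k)) ∂ν) +
            ((∫ s, Ψ (pj (p k + s • q k)) ∂ν) - (V : ℂ) * ∫ x, Ψ x ∂(haarT (Fin n))) -
            (((V : ℂ) * ∫ x, Φ x ∂(haarT (Fin n))) - (V : ℂ) * ∫ x, Ψ x ∂(haarT (Fin n)))‖ := by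
          congr 1; ring
      _ ≤ ‖(∫ s, Φ (pj (p k + s • q k)) ∂ν) - ∫ s, Ψ (pj (p k + s • q k)) ∂ν‖ +
            ‖(∫ s, Ψ (pj (p k + s • q k)) ∂ν) - (V : ℂ) * ∫ x, Ψ x ∂(haarT (Fin n))‖ +
            ‖((V : ℂ) * ∫ x, Φ x ∂(haarT (Fin n))) - (V : ℂ) * ∫ x, Ψ x ∂(haarT (Fin n))‖ :=
          (norm_sub_le _ _).trans (add_le_add (norm_add_le _ _) le_rfl)
      _ < ε / 3 + ε / 3 + ε / 3 := by
          have h1' : ‖(∫ s, Ψ (pj (p k + s • q k)) ∂ν) - (V : ℂ) * ∫ x, Ψ x ∂(haarT (Fin n))‖ < ε / 3 := h1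
          linarith
      _ = ε := by ring
  have hspan : Submodule.span ℂ (range (UnitAddTorus.mFourier (d := Fin n))) ≤ S := by
    rw [Submodule.span_le]
    rintro _ ⟨h, rfl⟩
    exact hmono h
  have htop : S.topologicalClosure = ⊤ := by
    rw [eq_top_iff, ← UnitAddTorus.span_mFourier_closure_eq_top]
    exact Submodule.topologicalClosure_mono hspan
  have hmem : Φ ∈ S := hcl (htop ▸ Submodule.mem_top)
  exact hmem

end

end Pool.Agent.W99.KA
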