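import Mathlib
import Pool.Agent.W99.KA.Raj

set_option autoImplicit false

/-! A Rajchman measure carried by a line whose images under a sequence of integer matrices avoid a
periodic open set vanishes. -/

namespace Pool.Agent.W99.KA

open MeasureTheory Set Filter Topology Pool.Agent.Y757.EM

noncomputable section

variable {n : ℕ}

/-- subtract an integer vector -/
def sh (x : Fin n → ℝ) (z : Fin n → ℤ) : Fin n → ℝ := fun i => x i - z i

lemma pj_near {G : Set (Fin n → ℝ)} (hG : IsOpen G) {x0 : Fin n → ℝ} (hx0 : x0 ∈ G) :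
    ∃ r : ℝ, 0 < r ∧ ∀ x, dist (pj x) (pj x0) < r → ∃ z, sh x z ∈ G := by
  obtain ⟨r, hr, hb⟩ := Metric.isOpen_iff.1 hG x0 hx0
  refine ⟨r, hr, fun x hx => ⟨fun i => round (x i - x0 i), hb ?_⟩⟩
  rw [Metric.mem_ball, dist_pi_lt_iff hr]
  intro i
  have h1 := (dist_pi_lt_iff hr).1 hx i
  rw [dist_eq_norm] at h1 ⊢
  have h2 : pj x i - pj x0 i = ((x i - x0 i : ℝ) : UnitAddCircle) := by
    simp [pj]
  rw [h2, UnitAddCircle.norm_eq] at h1
  rw [Real.norm_eq_abs]
  have h3 : sh x (fun i => round (x i - x0 i)) i - x0 i = x i - x0 i - round (x i - x0 i) := by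
    simp only [sh]; ring
  rw [h3]
  exact h1

/-- the tent function -/
def tent (r : ℝ) (y : UnitAddTorus (Fin n)) : C(UnitAddTorus (Fin n), ℝ) where
  toFun x := max 0 (r - dist x y)
  continuous_toFun := by fun_prop

/-- complex version -/
def tentC (r : ℝ) (y : UnitAddTorus (Fin n)) : C(UnitAddTorus (Fin n), ℂ) where
  toFun x := ((tent r y x : ℝ) : ℂ)
  continuous_toFun := Complex.continuous_ofReal.comp (tent r y).continuous

instance : (haarT (Fin n)).IsOpenPosMeasure := by
  unfold haarT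
  infer_instance

lemma tent_pos {r : ℝ} (hr : 0 < r) (y : UnitAddTorus (Fin n)) : 0 < ∫ x, tent r y x ∂(haarT (Fin n)) := by
  have hint : Integrable (fun x => tent r y x) (haarT (Fin n)) :=
    (tent r y).continuous.integrable_of_hasCompactSupport (HasCompactSupport.of_compactSpace _)
  refine (integral_pos_iff_support_of_nonneg (fun x => le_max_left _ _) hint).2 ?_
  have ho : IsOpen (Function.support fun x => tent r y x) := by
    exact (isOpen_compl_singleton (x := (0:ℝ))).preimage (tent r y).continuous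
  refine ho.measure_pos _ ⟨y, ?_⟩
  rw [Function.mem_support]
  show max 0 (r - dist y y) ≠ 0
  rw [dist_self, sub_zero, max_eq_right hr.le]
  exact hr.ne'

theorem vanish (ν : Measure ℝ) [IsFiniteMeasure ν] (hν : Tendsto (charFun ν) (cocompact ℝ) (𝓝 0))
    (p q : ℕ → Fin n → ℝ)
    (hq : ∀ h : Fin n → ℤ, h ≠ 0 → Tendsto (fun k => |∑ i, (h i : ℝ) * q k i|) atTop atTop)
    {G : Set (Fin n → ℝ)} (hG : IsOpen G) (hne : G.Nonempty)
    (hav : ∃ᶠ k in atTop, ∀ᵐ s ∂ν, ∀ z, sh (p k + s • q k) z ∉ G) : ν = 0 := by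
  obtain ⟨x0, hx0⟩ := hne
  obtain ⟨r, hr, hb⟩ := pj_near hG hx0
  have h1 := weak ν hν p q hq (tentC r (pj x0))
  have h2 : ∃ᶠ k in atTop, ∫ s, tentC r (pj x0) (pj (p k + s • q k)) ∂ν = 0 := by
    refine hav.mono fun k hk => ?_
    refine integral_eq_zero_of_ae ?_
    filter_upwards [hk] with s hs
    have h3 : ¬ dist (pj (p k + s • q k)) (pj x0) < r := fun h => by
      obtain ⟨z, hz⟩ := hb _ h
      exact hs z hz
    show ((max 0 (r - dist (pj (p k + s • q k)) (pj x0)) : ℝ) : ℂ) = 0
    rw [max_eq_left (by linarith [not_lt.1 h3])]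
    simp
  have h3 : (ν.real univ : ℂ) * ∫ x, tentC r (pj x0) x ∂(haarT (Fin n)) = 0 := by
    by_contra hcon
    have h4 := h1.eventually (isOpen_ne.mem_nhds hcon)
    obtain ⟨k, hk1, hk2⟩ := (h2.and_eventually h4).exists
    exact hk2 hk1
  have h4 : ∫ x, tentC r (pj x0) x ∂(haarT (Fin n)) = ((∫ x, tent r (pj x0) x ∂(haarT (Fin n)) : ℝ) : ℂ) := by
    exact integral_complex_ofReal
  rw [h4] at h3
  have h5 : (∫ x, tent r (pj x0) x ∂(haarT (Fin n)) : ℝ) ≠ 0 := (tent_pos hr _).ne'
  have h6 : ν.real univ = 0 := by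
    have := mul_eq_zero.1 h3
    rcases this with h | h
    · exact_mod_cast h
    · exact absurd (by exact_mod_cast h) h5
  rw [measureReal_def, ENNReal.toReal_eq_zero_iff] at h6
  rcases h6 with h | h
  · exact Measure.measure_univ_eq_zero.1 h
  · exact absurd h (measure_ne_top _ _)

/-- Lebesgue measure restricted to a bounded set is Rajchman -/
lemma raj_restrict {E : Set ℝ} (hE : MeasurableSet E) :
    Tendsto (charFun ((volume : Measure ℝ).restrict E)) (cocompact ℝ) (𝓝 0) := by
  have h1 := Real.tendsto_integral_exp_smul_cocompact (E.indicator fun _ => (1:ℂ))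
  have h2 : Tendsto (fun t : ℝ => -(t / (2 * Real.pi))) (cocompact ℝ) (cocompact ℝ) := by
    rw [← Metric.cobounded_eq_cocompact, ← tendsto_norm_atTop_iff_cobounded]
    have h3 : Tendsto (fun t : ℝ => ‖t‖ * (1 / (2 * Real.pi))) (Bornology.cobounded ℝ) atTop :=
      tendsto_norm_cobounded_atTop.atTop_mul_const (by positivity)
    refine h3.congr fun t => ?_
    rw [norm_neg, norm_div, Real.norm_of_nonneg (by positivity : (0:ℝ) ≤ 2 * Real.pi)]
    ring
  refine (h1.comp h2).congr fun t => ?_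
  rw [charFun_apply_real, ← integral_indicator hE, Function.comp_apply]
  refine integral_congr_ae (Eventually.of_forall fun x => ?_)
  show Real.fourierChar _ • _ = _
  rw [Circle.smul_def, Real.fourierChar_apply]
  by_cases hx : x ∈ E
  · rw [indicator_of_mem hx, indicator_of_mem hx, smul_eq_mul, mul_one]
    congr 1
    have : (Real.pi : ℂ) ≠ 0 := by exact_mod_cast Real.pi_ne_zero
    push_cast
    field_simp
  · rw [indicator_of_notMem hx, indicator_of_notMem hx, smul_zero]

end

end Pool.Agent.W99.KA
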