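import Mathlib
import Pool.Agent.W99.KA.Van
import Pool.Agent.W99.KA.Slab

set_option autoImplicit false

/-! Lattice porosity: the exceptional directions, and lines in the other directions. -/

namespace Pool.Agent.W99.KA

open MeasureTheory Set Filter Topology Matrix
open scoped ENNReal NNReal

noncomputable section

variable {n : ℕ}

/-- an integer matrix acting on `ℝⁿ` -/
def ma (M : Matrix (Fin n) (Fin n) ℤ) (x : Fin n → ℝ) : Fin n → ℝ := (M.map (Int.cast : ℤ → ℝ)) *ᵥ x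

/-- the rows escape -/
def Esc (L : ℕ → Matrix (Fin n) (Fin n) ℝ) : Prop :=
  ∀ h : Fin n → ℤ, h ≠ 0 → Tendsto (fun k => ‖(fun i => (h i : ℝ)) ᵥ* L k‖) atTop atTop

lemma ma_add (M : Matrix (Fin n) (Fin n) ℤ) (x y : Fin n → ℝ) : ma M (x + y) = ma M x + ma M y :=
  Matrix.mulVec_add _ _ _

lemma ma_smul (M : Matrix (Fin n) (Fin n) ℤ) (c : ℝ) (x : Fin n → ℝ) : ma M (c • x) = c • ma M x :=
  Matrix.mulVec_smul _ _ _

lemma dot_ma (L : Matrix (Fin n) (Fin n) ℝ) (h : Fin n → ℤ) (v : Fin n → ℝ) :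
    ∑ i, (h i : ℝ) * (L *ᵥ v) i = ∑ i, ((fun i => (h i : ℝ)) ᵥ* L) i * v i :=
  Matrix.dotProduct_mulVec (fun i => (h i : ℝ)) L v

lemma norm_cast_vec (w : Fin n → ℤ) : ‖fun i => (w i : ℝ)‖ = ‖w‖ := by
  refine le_antisymm ?_ ?_
  · refine (pi_norm_le_iff_of_nonneg (norm_nonneg _)).2 fun i => ?_
    have h1 := norm_le_pi_norm w i
    rwa [Int.norm_eq_abs, ← Real.norm_eq_abs] at h1
  · refine (pi_norm_le_iff_of_nonneg (norm_nonneg _)).2 fun i => ?_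
    have h1 := norm_le_pi_norm (fun i => (w i : ℝ)) i
    rwa [Int.norm_eq_abs, ← Real.norm_eq_abs]

/-- the subsequence and the exceptional cone -/
theorem exceptional (hn : 0 < n) (L : ℕ → Matrix (Fin n) (Fin n) ℝ) (hL : Esc L) (P : ℕ → Prop)
    (hP : ∃ᶠ k in atTop, P k) :
    ∃ κ : ℕ → ℕ, StrictMono κ ∧ (∀ j, P (κ j)) ∧ ∃ X : Set (Fin n → ℝ),
      (∀ (c : ℝ), ∀ v ∈ X, c • v ∈ X) ∧ dimH X + 1 ≤ n ∧
      ∀ v, v ∉ X → ∀ h : Fin n → ℤ, h ≠ 0 →
        Tendsto (fun j => |∑ i, (h i : ℝ) * (L (κ j) *ᵥ v) i|) atTop atTop := by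
  have hfr : ∀ j : ℕ, ∃ᶠ k in atTop, P k ∧ ∀ h : Fin n → ℤ, h ≠ 0 → ‖h‖ ≤ j →
      (2:ℝ) ^ (j ^ 2) ≤ ‖(fun i => (h i : ℝ)) ᵥ* L k‖ := by
    intro j
    refine hP.and_eventually ?_
    have hfin : {h : Fin n → ℤ | ‖h‖ ≤ j}.Finite := by
      have := (isCompact_closedBall (0 : Fin n → ℤ) (j:ℝ)).finite_of_discrete
      refine this.subset fun h hh => ?_
      simpa using hh
    have h1 : ∀ h ∈ {h : Fin n → ℤ | ‖h‖ ≤ j}, ∀ᶠ k in atTop, h ≠ 0 →
        (2:ℝ) ^ (j ^ 2) ≤ ‖(fun i => (h i : ℝ)) ᵥ* L k‖ := by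
      intro h _
      by_cases h0 : h = 0
      · exact Eventually.of_forall fun k hk => absurd h0 hk
      · filter_upwards [(hL h h0).eventually_ge_atTop ((2:ℝ) ^ (j ^ 2))] with k hk _
        exact hk
    have h2 := (hfin.eventually_all).2 h1
    filter_upwards [h2] with k hk h h0 hj
    exact hk h hj h0
  obtain ⟨κ, hκ, hκP⟩ := extraction_forall_of_frequently hfr
  refine ⟨κ, hκ, fun j => (hκP j).1,
    {v | ∃ h : Fin n → ℤ, h ≠ 0 ∧ ¬ Tendsto (fun j => |∑ i, (h i : ℝ) * (L (κ j) *ᵥ v) i|) atTop atTop},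
    ?_, ?_, ?_⟩
  · rintro c v ⟨h, h0, hv⟩
    refine ⟨h, h0, fun hcon => ?_⟩
    have h1 : ∀ j, |∑ i, (h i : ℝ) * (L (κ j) *ᵥ (c • v)) i| = |c| * |∑ i, (h i : ℝ) * (L (κ j) *ᵥ v) i| := by
      intro j
      rw [← abs_mul, Finset.mul_sum]
      congr 1
      refine Finset.sum_congr rfl fun i _ => ?_
      rw [Matrix.mulVec_smul, Pi.smul_apply, smul_eq_mul]
      ring
    simp only [h1] at hcon
    by_cases hc : c = 0
    · simp only [hc, abs_zero, zero_mul] at hcon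
      exact (not_tendsto_const_atTop _ _ hcon)
    · have hc' : 0 < |c| := abs_pos.2 hc
      refine hv ?_
      have h2 := hcon.const_mul_atTop (inv_pos.2 hc')
      refine h2.congr fun j => ?_
      rw [← mul_assoc, inv_mul_cancel₀ hc'.ne', one_mul]
  · -- dimension
    have hsub : {v | ∃ h : Fin n → ℤ, h ≠ 0 ∧
        ¬ Tendsto (fun j => |∑ i, (h i : ℝ) * (L (κ j) *ᵥ v) i|) atTop atTop} ⊆
        ⋃ (h : {h : Fin n → ℤ // h ≠ 0}), ⋃ (R : ℕ), ⋃ (ρ : ℕ),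
          {v : Fin n → ℝ | ‖v‖ ≤ ρ ∧ ∃ᶠ j in atTop, |∑ i, ((fun i => (h.1 i : ℝ)) ᵥ* L (κ j)) i * v i| ≤ R} := by
      rintro v ⟨h, h0, hv⟩
      rw [tendsto_atTop] at hv
      push Not at hv
      obtain ⟨b, hb⟩ := hv
      obtain ⟨R, hR⟩ := exists_nat_ge b
      obtain ⟨ρ, hρ⟩ := exists_nat_ge ‖v‖
      refine mem_iUnion.2 ⟨⟨h, h0⟩, mem_iUnion.2 ⟨R, mem_iUnion.2 ⟨ρ, hρ, ?_⟩⟩⟩
      refine hb.mono fun j hj => ?_
      rw [dot_ma] at hj
      linarith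
    have hdim : ∀ (h : {h : Fin n → ℤ // h ≠ 0}) (R ρ : ℕ),
        dimH {v : Fin n → ℝ | ‖v‖ ≤ ρ ∧ ∃ᶠ j in atTop, |∑ i, ((fun i => (h.1 i : ℝ)) ᵥ* L (κ j)) i * v i| ≤ R} ≤
          ((n - 1 : ℕ) : ℝ≥0∞) := by
      intro h R ρ
      have hu : ∀ᶠ j in atTop, (2:ℝ) ^ (j ^ 2) ≤ ‖(fun i => (h.1 i : ℝ)) ᵥ* L (κ j)‖ := by
        obtain ⟨j0, hj0⟩ := exists_nat_ge ‖h.1‖
        filter_upwards [eventually_ge_atTop j0] with j hj
        exact (hκP j).2 h.1 h.2 (hj0.trans (by exact_mod_cast hj))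
      refine dimH_le fun d' hd' => ?_
      by_contra hcon
      push Not at hcon
      have h1 : ((n:ℝ) - 1) < (d' : ℝ) := by
        have h2 : ((n - 1 : ℕ) : ℝ≥0) < d' := by exact_mod_cast hcon
        have h3 : ((n - 1 : ℕ) : ℝ) < (d' : ℝ) := by exact_mod_cast h2
        rwa [Nat.cast_sub hn, Nat.cast_one] at h3
      have h2 := limsup_slab hn (fun j => ((fun i => (h.1 i : ℝ)) ᵥ* L (κ j))) hu R ρ d' h1
      rw [h2] at hd'
      exact ENNReal.zero_ne_top hd'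
    have h1 : dimH {v | ∃ h : Fin n → ℤ, h ≠ 0 ∧
        ¬ Tendsto (fun j => |∑ i, (h i : ℝ) * (L (κ j) *ᵥ v) i|) atTop atTop} ≤ ((n - 1 : ℕ) : ℝ≥0∞) := by
      refine (dimH_mono hsub).trans ?_
      rw [dimH_iUnion]
      refine iSup_le fun h => ?_
      rw [dimH_iUnion]
      refine iSup_le fun R => ?_
      rw [dimH_iUnion]
      exact iSup_le fun ρ => hdim h R ρ
    calc _ ≤ ((n - 1 : ℕ) : ℝ≥0∞) + 1 := by gcongr
      _ = n := by
        have : n - 1 + 1 = n := by omega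
        exact_mod_cast this
  · intro v hv h h0
    by_contra hcon
    exact hv ⟨h, h0, hcon⟩

/-- the main statement on `Fin n → ℝ` -/
theorem porous (hn : 0 < n) (L : ℕ → Matrix (Fin n) (Fin n) ℝ) (hL : Esc L) (b : ℕ → Fin n → ℝ)
    {G : Set (Fin n → ℝ)} (hG : IsOpen G) (hne : G.Nonempty) (K : Set (Fin n → ℝ))
    (hK : ∃ᶠ k in atTop, ∀ x ∈ K, ∀ z, sh (L k *ᵥ x + b k) z ∉ G) :
    ∃ X : Set (Fin n → ℝ), (∀ (c : ℝ), ∀ v ∈ X, c • v ∈ X) ∧ dimH X + 1 ≤ n ∧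
      ∀ v, v ∉ X → ∀ a : Fin n → ℝ, volume {s : ℝ | a + s • v ∈ K} = 0 ∧
        ∀ (ν : Measure ℝ) [IsFiniteMeasure ν], Tendsto (charFun ν) (cocompact ℝ) (𝓝 0) →
          ν {s : ℝ | a + s • v ∉ K} = 0 → ν = 0 := by
  obtain ⟨κ, hκ, hP, X, hXc, hXd, hX⟩ := exceptional hn L hL _ hK
  refine ⟨X, hXc, hXd, fun v hv a => ?_⟩
  have hlin : ∀ j (s : ℝ), L (κ j) *ᵥ (a + s • v) + b (κ j) =
      (L (κ j) *ᵥ a + b (κ j)) + s • (L (κ j) *ᵥ v) := by
    intro j s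
    rw [Matrix.mulVec_add, Matrix.mulVec_smul]
    abel
  have key : ∀ (ν : Measure ℝ) [IsFiniteMeasure ν], Tendsto (charFun ν) (cocompact ℝ) (𝓝 0) →
      (∀ᵐ s ∂ν, ∀ j, ∀ z, sh (L (κ j) *ᵥ (a + s • v) + b (κ j)) z ∉ G) → ν = 0 := by
    intro ν _ hν hs
    refine vanish ν hν (fun j => L (κ j) *ᵥ a + b (κ j)) (fun j => L (κ j) *ᵥ v) (hX v hv) hG hne ?_
    refine Eventually.frequently (Eventually.of_forall fun j => ?_)
    filter_upwards [hs] with s hs z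
    have := hs j z
    rwa [hlin] at this
  refine ⟨?_, ?_⟩
  · set E : Set ℝ := {s | ∀ j, ∀ z, sh (L (κ j) *ᵥ (a + s • v) + b (κ j)) z ∉ G} with hE
    have hEc : IsClosed E := by
      have hEE : E = ⋂ j, ⋂ z, {s | sh (L (κ j) *ᵥ (a + s • v) + b (κ j)) z ∉ G} := by
        ext s; simp [hE]
      rw [hEE]
      refine isClosed_iInter fun j => isClosed_iInter fun z => ?_
      have hc : Continuous (fun s : ℝ => sh (L (κ j) *ᵥ (a + s • v) + b (κ j)) z) := by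
        have h1 : ∀ s : ℝ, sh (L (κ j) *ᵥ (a + s • v) + b (κ j)) z =
            ((L (κ j) *ᵥ a + b (κ j)) + s • (L (κ j) *ᵥ v)) - fun i => (z i : ℝ) := by
          intro s
          rw [hlin]
          rfl
        simp only [h1]
        fun_prop
      exact (hG.isClosed_compl).preimage hc
    have h0 : ∀ R : ℕ, volume (E ∩ Icc (-(R:ℝ)) R) = 0 := by
      intro R
      have hm : MeasurableSet (E ∩ Icc (-(R:ℝ)) R) := hEc.measurableSet.inter measurableSet_Icc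
      have : IsFiniteMeasure ((volume : Measure ℝ).restrict (E ∩ Icc (-(R:ℝ)) R)) := by
        refine ⟨?_⟩
        rw [Measure.restrict_apply_univ]
        exact (measure_mono inter_subset_right).trans_lt measure_Icc_lt_top
      have h1 := key _ (raj_restrict hm) (by
        rw [ae_restrict_iff' hm]
        exact Eventually.of_forall fun s hs => hs.1)
      rw [Measure.restrict_eq_zero] at h1
      exact h1
    have h1 : volume E = 0 := by
      have h2 : E ⊆ ⋃ R : ℕ, (E ∩ Icc (-(R:ℝ)) R) := by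
        intro s hs
        obtain ⟨R, hR⟩ := exists_nat_ge |s|
        exact mem_iUnion.2 ⟨R, hs, abs_le.1 hR⟩
      exact measure_mono_null h2 (measure_iUnion_null h0)
    refine measure_mono_null (fun s hs => ?_) h1
    exact fun j z => hP j _ hs z
  · intro ν _ hν hs
    refine key ν hν ?_
    have : ∀ᵐ s ∂ν, a + s • v ∈ K := hs
    filter_upwards [this] with s hs j z
    exact hP j _ hs z

end

end Pool.Agent.W99.KA
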