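import Mathlib
import Pool.Agent.W99.KA.Main

set_option autoImplicit false

/-! Sets with finite `A`-kernel, sets over invariant subsets of the torus, graph-directed integral
self-affine sets. -/

namespace Pool.Agent.W99.KA

open MeasureTheory Set Filter Topology Matrix
open scoped ENNReal NNReal

noncomputable section

variable {n : ℕ}

/-- the piece of `A ^ k K` in the unit cube at the integer vector `z` -/
def piece (A : Matrix (Fin n) (Fin n) ℤ) (K : Set (Fin n → ℝ)) (k : ℕ) (z : Fin n → ℤ) : Set (Fin n → ℝ) :=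
  {y | (∀ i, y i ∈ Icc (0:ℝ) 1) ∧ ∃ x ∈ K, ∀ i, ma (A ^ k) x i = y i + z i}

/-- no eigenvalue is zero or a root of unity -/
def Erg (A : Matrix (Fin n) (Fin n) ℤ) : Prop := A.det ≠ 0 ∧ ∀ m : ℕ, 1 ≤ m → (A ^ m - 1).det ≠ 0

lemma vecMul_inj {A : Matrix (Fin n) (Fin n) ℤ} (hA : A.det ≠ 0) {h h' : Fin n → ℤ} (e : h ᵥ* A = h' ᵥ* A) :
    h = h' := by
  by_contra hne
  have h1 : (h - h') ᵥ* A = 0 := by rw [Matrix.sub_vecMul, e, sub_self]
  exact hA (Matrix.exists_vecMul_eq_zero_iff.1 ⟨h - h', sub_ne_zero.2 hne, h1⟩)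

lemma cast_row (M : Matrix (Fin n) (Fin n) ℤ) (h : Fin n → ℤ) :
    (fun i => (h i : ℝ)) ᵥ* (M.map (Int.cast : ℤ → ℝ)) = fun i => ((h ᵥ* M) i : ℝ) := by
  funext i
  simp [Matrix.vecMul, dotProduct]

lemma esc_of_erg {A : Matrix (Fin n) (Fin n) ℤ} (hA : Erg A) :
    Esc (fun k => (A ^ k).map (Int.cast : ℤ → ℝ)) := by
  intro h h0
  simp only [cast_row, norm_cast_vec]
  have hinj : Function.Injective (fun k : ℕ => h ᵥ* A ^ k) := by
    have key : ∀ k m : ℕ, 1 ≤ m → h ᵥ* A ^ k ≠ h ᵥ* A ^ (k + m) := by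
      intro k m hm e
      have h1 : (h ᵥ* A ^ k) ᵥ* (A ^ m - 1) = 0 := by
        rw [Matrix.vecMul_sub, Matrix.vecMul_one, Matrix.vecMul_vecMul, ← pow_add, ← e, sub_self]
      have h2 : h ᵥ* A ^ k ≠ 0 := by
        intro h3
        have hdet : (A ^ k).det ≠ 0 := by
          rw [Matrix.det_pow]; exact pow_ne_zero _ hA.1
        exact hdet (Matrix.exists_vecMul_eq_zero_iff.1 ⟨h, h0, h3⟩)
      exact hA.2 m hm (Matrix.exists_vecMul_eq_zero_iff.1 ⟨_, h2, h1⟩)
    intro k k' e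
    rcases lt_trichotomy k k' with hlt | heq | hgt
    · obtain ⟨m, rfl⟩ := Nat.exists_eq_add_of_le hlt.le
      exact absurd e (key k m (by omega))
    · exact heq
    · obtain ⟨m, rfl⟩ := Nat.exists_eq_add_of_le hgt.le
      exact absurd e.symm (key k' m (by omega))
  have h1 : Tendsto (fun k : ℕ => h ᵥ* A ^ k) atTop (cocompact (Fin n → ℤ)) := by
    rw [cocompact_eq_cofinite, ← Nat.cofinite_eq_atTop]
    exact hinj.tendsto_cofinite
  exact tendsto_norm_cocompact_atTop.comp h1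

lemma ma_mul (M N : Matrix (Fin n) (Fin n) ℤ) (x : Fin n → ℝ) : ma (M * N) x = ma M (ma N x) := by
  unfold ma
  rw [Matrix.map_mul_intCast, Matrix.mulVec_mulVec]

lemma ma_one (x : Fin n → ℝ) : ma (1 : Matrix (Fin n) (Fin n) ℤ) x = x := by
  unfold ma
  rw [Matrix.map_one _ Int.cast_zero Int.cast_one, Matrix.one_mulVec]

/-- the inverse of the real map -/
lemma exists_homeo {M : Matrix (Fin n) (Fin n) ℤ} (hM : M.det ≠ 0) (z : Fin n → ℝ) :
    ∃ e : (Fin n → ℝ) ≃ₜ (Fin n → ℝ), ∀ x, e x = ma M x - z := by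
  have hdet : IsUnit (M.map (Int.cast : ℤ → ℝ)).det := by
    rw [isUnit_iff_ne_zero]
    have h1 : (M.map (Int.cast : ℤ → ℝ)).det = ((M.det : ℤ) : ℝ) := (Int.cast_det M).symm
    rw [h1]
    exact_mod_cast hM
  refine ⟨{ toFun := fun x => ma M x - z
            invFun := fun y => (M.map (Int.cast : ℤ → ℝ))⁻¹ *ᵥ (y + z)
            left_inv := fun x => ?_
            right_inv := fun y => ?_
            continuous_toFun := ?_
            continuous_invFun := ?_ }, fun x => rfl⟩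
  · simp only [sub_add_cancel]
    unfold ma
    rw [Matrix.mulVec_mulVec, Matrix.nonsing_inv_mul _ hdet, Matrix.one_mulVec]
  · simp only
    unfold ma
    rw [Matrix.mulVec_mulVec, Matrix.mul_nonsing_inv _ hdet, Matrix.one_mulVec, add_sub_cancel_right]
  · unfold ma
    exact (Continuous.matrix_mulVec continuous_const continuous_id).sub continuous_const
  · exact Continuous.matrix_mulVec continuous_const (by fun_prop)

lemma piece_closed {A : Matrix (Fin n) (Fin n) ℤ} (hA : A.det ≠ 0) {K : Set (Fin n → ℝ)} (hK : IsClosed K)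
    (hKi : interior K = ∅) (k : ℕ) (z : Fin n → ℤ) :
    IsClosed (piece A K k z) ∧ interior (piece A K k z) = ∅ := by
  have hdet : (A ^ k).det ≠ 0 := by
    rw [Matrix.det_pow]; exact pow_ne_zero _ hA
  obtain ⟨e, he⟩ := exists_homeo hdet (fun i => (z i : ℝ))
  have h1 : piece A K k z = {y | ∀ i, y i ∈ Icc (0:ℝ) 1} ∩ e '' K := by
    ext y
    constructor
    · rintro ⟨hy, x, hx, hxy⟩
      refine ⟨hy, x, hx, ?_⟩
      rw [he]
      funext i
      rw [Pi.sub_apply, hxy i]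
      ring
    · rintro ⟨hy, x, hx, hxy⟩
      refine ⟨hy, x, hx, fun i => ?_⟩
      rw [← hxy, he, Pi.sub_apply]
      ring
  have h2 : IsClosed {y : Fin n → ℝ | ∀ i, y i ∈ Icc (0:ℝ) 1} := by
    have : {y : Fin n → ℝ | ∀ i, y i ∈ Icc (0:ℝ) 1} = ⋂ i, {y | y i ∈ Icc (0:ℝ) 1} := by
      ext y; simp
    rw [this]
    exact isClosed_iInter fun i => isClosed_Icc.preimage (continuous_apply i)
  have h3 : IsClosed (e '' K) := e.isClosed_image.2 hK
  have h4 : interior (e '' K) = ∅ := by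
    rw [← e.image_interior, hKi, image_empty]
  refine ⟨h1 ▸ h2.inter h3, ?_⟩
  rw [h1]
  exact subset_empty_iff.1 ((interior_mono inter_subset_right).trans h4.subset)

lemma finite_union_closed {S : Set (Set (Fin n → ℝ))} (hS : S.Finite) (hc : ∀ s ∈ S, IsClosed s)
    (hi : ∀ s ∈ S, interior s = ∅) : IsClosed (⋃₀ S) ∧ interior (⋃₀ S) = ∅ := by
  induction S, hS using Set.Finite.induction_on with
  | empty => simp
  | @insert a S ha hS ih =>
    obtain ⟨h1, h2⟩ := ih (fun s hs => hc s (mem_insert_of_mem _ hs)) (fun s hs => hi s (mem_insert_of_mem _ hs))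
    rw [sUnion_insert]
    refine ⟨(hc a (mem_insert _ _)).union h1, ?_⟩
    rw [union_comm]
    rw [interior_union_isClosed_of_interior_empty h1 (hi a (mem_insert _ _))]
    exact h2

/-- a set with finite `A`-kernel misses a periodic open set -/
theorem auto_gap {A : Matrix (Fin n) (Fin n) ℤ} (hA : A.det ≠ 0) {K : Set (Fin n → ℝ)} (hK : IsClosed K)
    (hKi : interior K = ∅) (hfin : (range fun p : ℕ × (Fin n → ℤ) => piece A K p.1 p.2).Finite) :
    ∃ G : Set (Fin n → ℝ), IsOpen G ∧ G.Nonempty ∧ ∀ k, ∀ x ∈ K, ∀ z, sh (ma (A ^ k) x) z ∉ G := by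
  obtain ⟨h1, h2⟩ := finite_union_closed hfin
    (by rintro _ ⟨p, rfl⟩; exact (piece_closed hA hK hKi p.1 p.2).1)
    (by rintro _ ⟨p, rfl⟩; exact (piece_closed hA hK hKi p.1 p.2).2)
  set F := ⋃₀ (range fun p : ℕ × (Fin n → ℤ) => piece A K p.1 p.2) with hF
  set Q : Set (Fin n → ℝ) := {y | ∀ i, y i ∈ Ioo (0:ℝ) 1} with hQ
  have hQo : IsOpen Q := by
    have : Q = ⋂ i, {y : Fin n → ℝ | y i ∈ Ioo (0:ℝ) 1} := by
      ext y; simp [hQ]
    rw [this]
    exact isOpen_iInter_of_finite fun i => isOpen_Ioo.preimage (continuous_apply i)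
  refine ⟨Q \ F, hQo.sdiff h1, ?_, ?_⟩
  · by_contra hcon
    rw [not_nonempty_iff_eq_empty, sdiff_eq_empty] at hcon
    have h3 : Q ⊆ interior F := interior_maximal hcon hQo
    rw [h2] at h3
    have h4 : (fun _ => (1/2 : ℝ)) ∈ Q := fun i => by constructor <;> norm_num
    exact h3 h4
  · intro k x hx z hz
    refine hz.2 (mem_sUnion.2 ⟨piece A K k z, ⟨(k, z), rfl⟩, fun i => ?_, x, hx, fun i => ?_⟩)
    · exact Ioo_subset_Icc_self (hz.1 i)
    · simp only [sh]; ring

/-- graph-directed integral self-affine families: iterates -/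
lemma graph_iter {ι : Type*} {A : Matrix (Fin n) (Fin n) ℤ} {K : ι → Set (Fin n → ℝ)}
    {D : ι → ι → Set (Fin n → ℤ)}
    (hK : ∀ i, ma A '' K i = ⋃ j, ⋃ d ∈ D i j, (fun x => x + fun l => (d l : ℝ)) '' K j) (k : ℕ) :
    ∀ i, ∃ D' : ι → Set (Fin n → ℤ),
      ma (A ^ k) '' K i = ⋃ j, ⋃ d ∈ D' j, (fun x => x + fun l => (d l : ℝ)) '' K j := by
  induction k with
  | zero =>
    intro i
    classical
    refine ⟨fun j => if j = i then {0} else ∅, ?_⟩
    rw [pow_zero]
    have h1 : (ma (1 : Matrix (Fin n) (Fin n) ℤ)) = id := by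
      funext x; exact ma_one x
    rw [h1, image_id]
    ext x
    simp only [mem_iUnion]
    constructor
    · intro hx
      refine ⟨i, 0, by simp, x, hx, ?_⟩
      funext l; simp
    · rintro ⟨j, d, hd, y, hy, rfl⟩
      by_cases hj : j = i
      · subst hj
        simp only [if_true, mem_singleton_iff] at hd
        subst hd
        convert hy using 1
        funext l; simp
      · simp [hj] at hd
  | succ k ih =>
    intro i
    obtain ⟨D', hD'⟩ := ih i
    refine ⟨fun j' => {w | ∃ j, ∃ d ∈ D' j, ∃ d' ∈ D j j', w = d' + A *ᵥ d}, ?_⟩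
    have h1 : ma (A ^ (k+1)) '' K i = ma A '' (ma (A ^ k) '' K i) := by
      rw [image_image]
      refine image_congr fun x _ => ?_
      rw [pow_succ', ma_mul]
    have hcast : ∀ d : Fin n → ℤ, ma A (fun l => (d l : ℝ)) = fun l => ((A *ᵥ d) l : ℝ) := by
      intro d
      funext l
      simp [ma, Matrix.mulVec, dotProduct]
    rw [h1, hD']
    ext x
    constructor
    · rintro ⟨y, hy, rfl⟩
      simp only [mem_iUnion] at hy
      obtain ⟨j, d, hd, u, hu, rfl⟩ := hy
      have h2 : ma A u ∈ ma A '' K j := ⟨u, hu, rfl⟩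
      rw [hK j] at h2
      simp only [mem_iUnion] at h2
      obtain ⟨j', d', hd', u', hu', he⟩ := h2
      simp only [mem_iUnion]
      refine ⟨j', d' + A *ᵥ d, ⟨j, d, hd, d', hd', rfl⟩, u', hu', ?_⟩
      show u' + _ = ma A (u + _)
      rw [ma_add, hcast, ← he]
      funext l
      simp only [Pi.add_apply]
      push_cast
      ring
    · intro hx
      simp only [mem_iUnion] at hx
      obtain ⟨j', w, ⟨j, d, hd, d', hd', rfl⟩, u', hu', rfl⟩ := hx
      have h2 : (fun x => x + fun l => (d' l : ℝ)) u' ∈ ma A '' K j := by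
        rw [hK j]
        simp only [mem_iUnion]
        exact ⟨j', d', hd', u', hu', rfl⟩
      obtain ⟨u, hu, he⟩ := h2
      refine ⟨u + fun l => (d l : ℝ), ?_, ?_⟩
      · simp only [mem_iUnion]
        exact ⟨j, d, hd, u, hu, rfl⟩
      · rw [ma_add, hcast, he]
        funext l
        simp only [Pi.add_apply]
        push_cast
        ring

/-- graph-directed integral self-affine families have finite kernels -/
theorem graph_finite {ι : Type*} [Finite ι] {A : Matrix (Fin n) (Fin n) ℤ} {K : ι → Set (Fin n → ℝ)}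
    {D : ι → ι → Set (Fin n → ℤ)} (hb : ∀ i, Bornology.IsBounded (K i))
    (hK : ∀ i, ma A '' K i = ⋃ j, ⋃ d ∈ D i j, (fun x => x + fun l => (d l : ℝ)) '' K j) (i : ι) :
    (range fun p : ℕ × (Fin n → ℤ) => piece A (K i) p.1 p.2).Finite := by
  -- the elementary pieces
  let Q : ι × (Fin n → ℤ) → Set (Fin n → ℝ) := fun p =>
    {y | (∀ i, y i ∈ Icc (0:ℝ) 1) ∧ (y + fun l => (p.2 l : ℝ)) ∈ K p.1}
  have hWfin : {p : ι × (Fin n → ℤ) | (Q p).Nonempty}.Finite := by
    have hbd : ∀ j, ∃ R : ℝ, ∀ x ∈ K j, ‖x‖ ≤ R := fun j => (hb j).exists_norm_le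
    choose R hR using hbd
    have h1 : {p : ι × (Fin n → ℤ) | (Q p).Nonempty} ⊆
        ⋃ j : ι, (Prod.mk j) '' (Metric.closedBall (0 : Fin n → ℤ) (R j + 1)) := by
      rintro ⟨j, w⟩ ⟨y, hy, hyK⟩
      refine mem_iUnion.2 ⟨j, w, ?_, rfl⟩
      rw [mem_closedBall_zero_iff, ← norm_cast_vec]
      have h2 := hR j _ hyK
      have h3 : ‖y‖ ≤ 1 := by
        refine (pi_norm_le_iff_of_nonneg zero_le_one).2 fun l => ?_
        rw [Real.norm_eq_abs, abs_le]
        exact ⟨by linarith [(hy l).1], (hy l).2⟩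
      have h4 : (fun l => (w l : ℝ)) = (y + fun l => (w l : ℝ)) - y := by
        funext l; simp
      calc ‖fun l => (w l : ℝ)‖ = ‖(y + fun l => (w l : ℝ)) - y‖ := by rw [← h4]
        _ ≤ ‖(y + fun l => (w l : ℝ))‖ + ‖y‖ := norm_sub_le _ _
        _ ≤ R j + 1 := add_le_add h2 h3
    refine Finite.subset (finite_iUnion fun j => Finite.image _ ?_) h1
    exact (isCompact_closedBall (0 : Fin n → ℤ) _).finite_of_discrete
  refine (hWfin.finite_subsets.image (fun T => ⋃ p ∈ T, Q p)).subset ?_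
  rintro _ ⟨⟨k, z⟩, rfl⟩
  obtain ⟨D', hD'⟩ := graph_iter hK k i
  refine ⟨{p | (Q p).Nonempty ∧ z - p.2 ∈ D' p.1}, fun p hp => hp.1, ?_⟩
  ext y
  simp only [mem_iUnion]
  constructor
  · rintro ⟨p, ⟨_, hz⟩, hy, hyK⟩
    refine ⟨hy, ?_⟩
    have h2 : (y + fun l => (z l : ℝ)) ∈ ma (A ^ k) '' K i := by
      rw [hD']
      simp only [mem_iUnion]
      refine ⟨p.1, z - p.2, hz, _, hyK, ?_⟩
      funext l
      simp only [Pi.add_apply, Pi.sub_apply]
      push_cast
      ring
    obtain ⟨x, hx, he⟩ := h2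
    exact ⟨x, hx, fun l => by rw [he]; rfl⟩
  · rintro ⟨hy, x, hx, he⟩
    have h2 : (y + fun l => (z l : ℝ)) ∈ ma (A ^ k) '' K i := by
      refine ⟨x, hx, ?_⟩
      funext l
      exact he l
    rw [hD'] at h2
    simp only [mem_iUnion] at h2
    obtain ⟨j, d, hd, u, hu, hue⟩ := h2
    have h3 : (y + fun l => ((z - d) l : ℝ)) = u := by
      funext l
      have := congrFun hue l
      simp only [Pi.add_apply, Pi.sub_apply] at this ⊢
      push_cast
      linarith
    have hQ : y ∈ Q (j, z - d) := by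
      refine ⟨hy, ?_⟩
      rw [h3]
      exact hu
    refine ⟨(j, z - d), ⟨⟨y, hQ⟩, ?_⟩, hQ⟩
    simpa using hd

end

end Pool.Agent.W99.KA
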